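import Pool.Agent.H207.BT.Stm4

/-! # Roots in one variable: proof of `S_RT1` -/

set_option autoImplicit false

open Topology Filter Metric Set

namespace Pool.Agent.H113.BT207

/-- a local inverse of the root of `G` -/
theorem inv_data (G : ℂ → ℂ) (ζ₀ : ℂ) (n : ℕ) (hn : n ≠ 0) (h : ℂ → ℂ) (hh : AnalyticAt ℂ h ζ₀)
    (h0 : h ζ₀ ≠ 0) (hG : ∀ᶠ u in 𝓝 ζ₀, G u = (u - ζ₀) ^ n * h u) :
    ∃ (Ψ : ℂ → ℂ) (a : ℂ), a ≠ 0 ∧ Ψ 0 = ζ₀ ∧ HasStrictDerivAt Ψ a 0 ∧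
      ∀ᶠ b in 𝓝 (0 : ℂ), G (Ψ b) = b ^ n := by
  obtain ⟨a, ha⟩ := IsAlgClosed.exists_pow_nat_eq (h ζ₀) (Nat.pos_of_ne_zero hn)
  have ha0 : a ≠ 0 := by
    rintro rfl
    rw [zero_pow hn] at ha
    exact h0 ha.symm
  obtain ⟨w, hw⟩ : ∃ w : ℂ → ℂ, w = fun u => h u / h ζ₀ := ⟨_, rfl⟩
  have hwa : AnalyticAt ℂ w ζ₀ := by
    rw [hw]
    exact hh.div analyticAt_const h0
  have hw1 : w ζ₀ = 1 := by
    rw [hw]
    exact div_self h0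
  obtain ⟨h₁, hh₁⟩ : ∃ h₁ : ℂ → ℂ, h₁ = fun u => a * w u ^ ((n : ℂ)⁻¹) := ⟨_, rfl⟩
  have hpa : AnalyticAt ℂ h₁ ζ₀ := by
    rw [hh₁]
    refine analyticAt_const.mul (hwa.cpow analyticAt_const ?_)
    rw [hw1]
    exact Complex.one_mem_slitPlane
  have hp0 : h₁ ζ₀ = a := by
    rw [hh₁]
    simp only [hw1, Complex.one_cpow, mul_one]
  have hpn : ∀ u, h₁ u ^ n = h u := by
    intro u
    have e1 : h₁ u = a * w u ^ ((n : ℂ)⁻¹) := by rw [hh₁]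
    have e2 : w u = h u / h ζ₀ := by rw [hw]
    rw [e1, mul_pow, Complex.cpow_nat_inv_pow _ hn, ha, e2]
    field_simp
  obtain ⟨Φ, hΦ⟩ : ∃ Φ : ℂ → ℂ, Φ = fun u => (u - ζ₀) * h₁ u := ⟨_, rfl⟩
  have hd : HasStrictDerivAt Φ a ζ₀ := by
    have h2 : HasStrictDerivAt (fun u : ℂ => id u - ζ₀) 1 ζ₀ :=
      (hasStrictDerivAt_id ζ₀).sub_const ζ₀
    have h3 := HasStrictDerivAt.mul h2 hpa.hasStrictDerivAt
    have h4 : (1 : ℂ) * h₁ ζ₀ + (id ζ₀ - ζ₀) * deriv h₁ ζ₀ = a := by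
      rw [hp0, id, sub_self, zero_mul, add_zero, one_mul]
    rw [h4] at h3
    rw [hΦ]
    exact h3
  have hΦ0 : Φ ζ₀ = 0 := by
    rw [hΦ]
    simp
  have hinv := hd.to_localInverse ha0
  have hr := (hd.hasStrictFDerivAt_equiv ha0).eventually_right_inverse
  have hΨ0 : hd.localInverse Φ a ζ₀ ha0 (Φ ζ₀) = ζ₀ :=
    (hd.hasStrictFDerivAt_equiv ha0).localInverse_apply_image
  rw [hΦ0] at hinv hr hΨ0
  refine ⟨hd.localInverse Φ a ζ₀ ha0, a⁻¹, inv_ne_zero ha0, hΨ0, hinv, ?_⟩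
  have hcont : Tendsto (hd.localInverse Φ a ζ₀ ha0) (𝓝 0) (𝓝 ζ₀) := by
    have h5 := hinv.hasDerivAt.continuousAt.tendsto
    rw [hΨ0] at h5
    exact h5
  filter_upwards [hcont.eventually hG, hr] with b h5 h6
  rw [h5]
  have h7 : Φ (hd.localInverse Φ a ζ₀ ha0 b) = b := h6
  have h8 : (hd.localInverse Φ a ζ₀ ha0 b - ζ₀) ^ n * h (hd.localInverse Φ a ζ₀ ha0 b) =
      Φ (hd.localInverse Φ a ζ₀ ha0 b) ^ n := by
    have e3 : ∀ u, Φ u = (u - ζ₀) * h₁ u := fun u => by rw [hΦ]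
    rw [e3 (hd.localInverse Φ a ζ₀ ha0 b), mul_pow, hpn]
  rw [h8, h7]

theorem t_RT1 : Pool.Agent.H207.BT.S_RT1 := by
  intro G ζ₀ n hn _ hex
  obtain ⟨h, hh, h0, hG⟩ := hex
  obtain ⟨Ψ, a, ha, hΨ0, hd, hr⟩ := inv_data G ζ₀ n (by omega) h hh h0 hG
  have ha0 : 0 < ‖a‖ := norm_pos_iff.2 ha
  have hlit := hd.hasStrictFDerivAt.isLittleO.def (half_pos ha0)
  obtain ⟨η₁, hη₁, hb₁⟩ := Metric.eventually_nhds_iff.1 hlit
  obtain ⟨η₂, hη₂, hb₂⟩ := Metric.eventually_nhds_iff.1 hr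
  have key : ∀ b b' : ℂ, ‖b‖ < η₁ → ‖b'‖ < η₁ → ‖a‖ / 2 * ‖b - b'‖ ≤ ‖Ψ b - Ψ b'‖ ∧
      ‖Ψ b - Ψ b'‖ ≤ 2 * ‖a‖ * ‖b - b'‖ := by
    intro b b' h1 h2
    have h3 := @hb₁ (b, b') (by
      rw [Prod.dist_eq]
      exact max_lt (by simpa using h1) (by simpa using h2))
    have h4 : ‖Ψ b - Ψ b' - (b - b') * a‖ ≤ ‖a‖ / 2 * ‖b - b'‖ := by
      simpa using h3
    have h5 : ‖(b - b') * a‖ = ‖a‖ * ‖b - b'‖ := by rw [norm_mul, mul_comm]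
    have h6 := norm_sub_norm_le (Ψ b - Ψ b') ((b - b') * a)
    have h7 := norm_sub_norm_le ((b - b') * a) (Ψ b - Ψ b')
    rw [norm_sub_rev ((b - b') * a)] at h7
    have h8 : 0 ≤ ‖a‖ * ‖b - b'‖ := by positivity
    constructor
    · linarith
    · linarith
  -- a root of unity
  have hprim := Complex.isPrimitiveRoot_exp n (by omega)
  obtain ⟨e, he⟩ : ∃ e : ℂ, e = Complex.exp (2 * Real.pi * Complex.I / n) := ⟨_, rfl⟩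
  rw [← he] at hprim
  have he1 : e ^ n = 1 := hprim.pow_eq_one
  have hene : e ≠ 1 := hprim.ne_one (by omega)
  have hen : ‖e‖ = 1 := hprim.norm'_eq_one (by omega)
  have hc : 0 < ‖1 - e‖ := norm_pos_iff.2 (sub_ne_zero.2 hene.symm)
  obtain ⟨c, hcd⟩ : ∃ c : ℝ, c = ‖1 - e‖ := ⟨_, rfl⟩
  rw [← hcd] at hc
  obtain ⟨B, hB⟩ : ∃ B : ℝ, B = 1 + 2 * ‖a‖ + 2 / ‖a‖ + 4 / (‖a‖ * c) := ⟨_, rfl⟩
  have p1 : 0 < 2 / ‖a‖ := by positivity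
  have p2 : 0 < 4 / (‖a‖ * c) := by positivity
  refine ⟨min η₁ η₂ / 2, half_pos (lt_min hη₁ hη₂), B, by linarith, ?_⟩
  intro t z y ht hy hyη
  have hy1 : y < η₁ := by
    have h1 := min_le_left η₁ η₂
    linarith
  have hy2 : y < η₂ := by
    have h1 := min_le_right η₁ η₂
    linarith
  obtain ⟨b, hb⟩ := IsAlgClosed.exists_pow_nat_eq t (by omega : 0 < n)
  have hbn : ‖b‖ = y := by
    have h1 : ‖b‖ ^ n = y ^ n := by rw [← norm_pow, hb, ht]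
    exact (pow_left_inj₀ (norm_nonneg b) hy.le (by omega)).1 h1
  have fact : ∀ β : ℂ, ‖β‖ = y → β ^ n = t →
      G (Ψ β) = t ∧ ‖Ψ β - ζ₀‖ ≤ B * y ∧ y ≤ B * ‖Ψ β - ζ₀‖ := by
    intro β hβ hβn
    have h1 := key β 0 (by rw [hβ]; exact hy1) (by rw [norm_zero]; exact hη₁)
    rw [sub_zero, hΨ0, hβ] at h1
    refine ⟨?_, ?_, ?_⟩
    · rw [@hb₂ β (by rw [dist_zero_right, hβ]; exact hy2), hβn]
    · refine h1.2.trans (mul_le_mul_of_nonneg_right ?_ hy.le)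
      linarith
    · have h2 : y = 2 / ‖a‖ * (‖a‖ / 2 * y) := by field_simp
      calc y = 2 / ‖a‖ * (‖a‖ / 2 * y) := h2
        _ ≤ 2 / ‖a‖ * ‖Ψ β - ζ₀‖ := mul_le_mul_of_nonneg_left h1.1 p1.le
        _ ≤ B * ‖Ψ β - ζ₀‖ := mul_le_mul_of_nonneg_right (by linarith) (norm_nonneg _)
  have hben : ‖b * e‖ = y := by rw [norm_mul, hen, mul_one, hbn]
  have hbe : (b * e) ^ n = t := by rw [mul_pow, he1, mul_one, hb]
  have hfar : ∀ v : ℂ, ‖a‖ * c * y / 4 ≤ ‖v - z‖ → y ≤ B * ‖v - z‖ := by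
    intro v hv
    have h2 : y = 4 / (‖a‖ * c) * (‖a‖ * c * y / 4) := by field_simp
    calc y = 4 / (‖a‖ * c) * (‖a‖ * c * y / 4) := h2
      _ ≤ 4 / (‖a‖ * c) * ‖v - z‖ := mul_le_mul_of_nonneg_left hv p2.le
      _ ≤ B * ‖v - z‖ := mul_le_mul_of_nonneg_right (by linarith) (norm_nonneg _)
  rcases le_or_gt (‖a‖ * c * y / 4) ‖Ψ b - z‖ with h1 | h1
  · obtain ⟨f1, f2, f3⟩ := fact b hbn hb
    exact ⟨Ψ b, f1, f2, f3, hfar _ h1⟩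
  · obtain ⟨f1, f2, f3⟩ := fact (b * e) hben hbe
    refine ⟨Ψ (b * e), f1, f2, f3, hfar _ ?_⟩
    have h2 := (key b (b * e) (by rw [hbn]; exact hy1) (by rw [hben]; exact hy1)).1
    have h3 : ‖b - b * e‖ = y * c := by
      have h4 : b - b * e = b * (1 - e) := by ring
      rw [h4, norm_mul, hbn, hcd]
    rw [h3] at h2
    have h5 : ‖Ψ b - Ψ (b * e)‖ ≤ ‖Ψ b - z‖ + ‖Ψ (b * e) - z‖ := by
      have h6 : Ψ b - Ψ (b * e) = (Ψ b - z) - (Ψ (b * e) - z) := by ring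
      rw [h6]
      exact norm_sub_le _ _
    nlinarith

end Pool.Agent.H113.BT207
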